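import Mathlib

set_option autoImplicit false

open Filter Topology

namespace Pool.Agent.H.MP_8cad90_an

section Abstract

variable {H : Type} [NormedAddCommGroup H] [InnerProductSpace ℝ H]

/-- the building block seminorm -/
noncomputable def FF (φ : H →L[ℝ] ℝ) (ε : ℝ) (x : H) : ℝ := max (ε * ‖x‖) |φ x|

lemma FF_add (φ : H →L[ℝ] ℝ) {ε : ℝ} (hε : 0 ≤ ε) (x y : H) :
    FF φ ε (x + y) ≤ FF φ ε x + FF φ ε y := by
  unfold FF
  apply max_le
  · have h1 := norm_add_le x y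
    have h2 := le_max_left (ε * ‖x‖) |φ x|
    have h3 := le_max_left (ε * ‖y‖) |φ y|
    nlinarith
  · have h1 := abs_add_le (φ x) (φ y)
    have h2 := le_max_right (ε * ‖x‖) |φ x|
    have h3 := le_max_right (ε * ‖y‖) |φ y|
    rw [map_add]; linarith

lemma FF_smul (φ : H →L[ℝ] ℝ) (ε : ℝ) (a : ℝ) (x : H) :
    FF φ ε (a • x) = |a| * FF φ ε x := by
  unfold FF
  rw [norm_smul, map_smul, smul_eq_mul, abs_mul, Real.norm_eq_abs, mul_max_of_nonneg _ _ (abs_nonneg a)]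
  congr 1; ring

lemma FF_nonneg (φ : H →L[ℝ] ℝ) (ε : ℝ) (x : H) : 0 ≤ FF φ ε x :=
  le_trans (abs_nonneg _) (le_max_right _ _)

lemma FF_le (φ : H →L[ℝ] ℝ) {ε : ℝ} (hε : ε ≤ 1) (hφ : ∀ x, |φ x| ≤ 2 * ‖x‖) (x : H) :
    FF φ ε x ≤ 2 * ‖x‖ := by
  unfold FF
  apply max_le _ (hφ x)
  have := norm_nonneg x
  nlinarith

lemma FF_contDiffAt (φ : H →L[ℝ] ℝ) {ε : ℝ} (hε : 0 < ε) {g : H} (hg : g ≠ 0)
    (hk : |φ g| ≠ ε * ‖g‖) : ContDiffAt ℝ 1 (FF φ ε) g := by
  have hc1 : Continuous fun x : H => ε * ‖x‖ := by fun_prop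
  have hc2 : Continuous fun x : H => |φ x| := by fun_prop
  rcases lt_or_gt_of_ne hk with h | h
  · have hev : ∀ᶠ x in 𝓝 g, |φ x| < ε * ‖x‖ := hc2.continuousAt.eventually_lt hc1.continuousAt h
    have h1 : ContDiffAt ℝ 1 (fun x : H => ε * ‖x‖) g :=
      contDiffAt_const.mul (contDiffAt_norm ℝ hg)
    refine h1.congr_of_eventuallyEq ?_
    filter_upwards [hev] with x hx
    exact max_eq_left hx.le
  · have hev : ∀ᶠ x in 𝓝 g, ε * ‖x‖ < |φ x| := hc1.continuousAt.eventually_lt hc2.continuousAt h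
    have h0 : φ g ≠ 0 := by
      intro h0
      rw [h0, abs_zero] at h
      have := mul_pos hε (norm_pos_iff.mpr hg)
      linarith
    have h1 : ContDiffAt ℝ 1 (fun x : H => ‖φ x‖) g :=
      ContDiffAt.norm ℝ φ.contDiff.contDiffAt h0
    refine h1.congr_of_eventuallyEq ?_
    filter_upwards [hev] with x hx
    exact max_eq_right hx.le

/-- second difference estimate for a function which is `C^1` at `g0` -/
lemma second_diff {f : H → ℝ} {g0 : H} (hf : ContDiffAt ℝ 1 f g0) (η : ℝ) (hη : 0 < η) :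
    ∃ ρ > 0, ∀ g g' v : H, ‖g - g0‖ < ρ → ‖g' - g0‖ < ρ → ‖v‖ < ρ →
      f (g + v) - f g + (f (g' - v) - f g') ≤ η * ‖v‖ := by
  have hs : HasStrictFDerivAt f (fderiv ℝ f g0) g0 := hf.hasStrictFDerivAt one_ne_zero
  have h1 := hs.isLittleO.def (c := η / 2) (by positivity)
  rw [Metric.eventually_nhds_iff] at h1
  obtain ⟨r, hr, h1⟩ := h1
  refine ⟨r / 2, by positivity, fun g g' v hg hg' hv => ?_⟩
  have a1 : dist (g + v, g) (g0, g0) < r := by
    rw [Prod.dist_eq, max_lt_iff, dist_eq_norm, dist_eq_norm]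
    refine ⟨?_, by simp only; linarith⟩
    have : g + v - g0 = (g - g0) + v := by abel
    simp only
    rw [this]
    have := norm_add_le (g - g0) v
    linarith
  have a2 : dist (g' - v, g') (g0, g0) < r := by
    rw [Prod.dist_eq, max_lt_iff, dist_eq_norm, dist_eq_norm]
    refine ⟨?_, by simp only; linarith⟩
    have : g' - v - g0 = (g' - g0) - v := by abel
    simp only
    rw [this]
    have := norm_sub_le (g' - g0) v
    linarith
  have b1 := h1 a1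
  have b2 := h1 a2
  simp only [add_sub_cancel_left, sub_sub_cancel_left, map_neg, norm_neg, Real.norm_eq_abs] at b1 b2
  have c1 := le_of_abs_le b1
  have c2 := le_of_abs_le b2
  linarith

variable (φ : ℕ → H →L[ℝ] ℝ) (ε w : ℕ → ℝ)

/-- the new norm -/
noncomputable def NN (x : H) : ℝ := ‖x‖ + ∑' k, w k * FF (φ k) (ε k) x

structure Good : Prop where
  εpos : ∀ k, 0 < ε k
  εle : ∀ k, ε k ≤ 1
  wpos : ∀ k, 0 < w k
  wsum : Summable w
  wtail : ∀ j, ∑' k, w (k + (j + 1)) ≤ w j * ε j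
  φle : ∀ k x, |φ k x| ≤ 2 * ‖x‖
  big : ∀ x : H, x ≠ 0 → ∀ C : ℝ, ∀ᶠ k in atTop, C * ε k < |φ k x|

variable {φ ε w}

lemma Good.summ (h : Good φ ε w) (x : H) : Summable fun k => w k * FF (φ k) (ε k) x := by
  refine Summable.of_nonneg_of_le (fun k => mul_nonneg (h.wpos k).le (FF_nonneg _ _ _))
    (fun k => ?_) (h.wsum.mul_right (2 * ‖x‖))
  exact mul_le_mul_of_nonneg_left (FF_le _ (h.εle k) (h.φle k) x) (h.wpos k).le

lemma Good.NN_low (h : Good φ ε w) (x : H) : 1 * ‖x‖ ≤ NN φ ε w x := by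
  unfold NN
  have : 0 ≤ ∑' k, w k * FF (φ k) (ε k) x :=
    tsum_nonneg fun k => mul_nonneg (h.wpos k).le (FF_nonneg _ _ _)
  linarith

lemma Good.NN_up (h : Good φ ε w) (x : H) : NN φ ε w x ≤ (1 + (∑' k, w k) * 2) * ‖x‖ := by
  unfold NN
  have : ∑' k, w k * FF (φ k) (ε k) x ≤ ∑' k, w k * (2 * ‖x‖) :=
    (h.summ x).tsum_le_tsum
      (fun k => mul_le_mul_of_nonneg_left (FF_le _ (h.εle k) (h.φle k) x) (h.wpos k).le)
      (h.wsum.mul_right _)
  rw [tsum_mul_right] at this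
  linarith

lemma Good.NN_add (h : Good φ ε w) (x y : H) : NN φ ε w (x + y) ≤ NN φ ε w x + NN φ ε w y := by
  unfold NN
  have h1 := norm_add_le x y
  have h2 : ∑' k, w k * FF (φ k) (ε k) (x + y) ≤
      ∑' k, (w k * FF (φ k) (ε k) x + w k * FF (φ k) (ε k) y) := by
    refine (h.summ _).tsum_le_tsum (fun k => ?_) ((h.summ x).add (h.summ y))
    rw [← mul_add]
    exact mul_le_mul_of_nonneg_left (FF_add _ (h.εpos k).le x y) (h.wpos k).le
  rw [(h.summ x).tsum_add (h.summ y)] at h2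
  linarith

lemma NN_smul (a : ℝ) (x : H) : NN φ ε w (a • x) = ‖a‖ * NN φ ε w x := by
  unfold NN
  rw [norm_smul, mul_add, ← tsum_mul_left]
  congr 1
  refine tsum_congr fun k => ?_
  rw [FF_smul, Real.norm_eq_abs]; ring

/-- tail estimate -/
lemma Good.tail (h : Good φ ε w) (j : ℕ) (u v : H) :
    ∑' k, w (k + (j + 1)) * FF (φ (k + (j + 1))) (ε (k + (j + 1))) (u + v) ≤
      ∑' k, w (k + (j + 1)) * FF (φ (k + (j + 1))) (ε (k + (j + 1))) u
        + w j * ε j * (2 * ‖v‖) := by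
  have s1 := (summable_nat_add_iff (j + 1)).mpr (h.summ (u + v))
  have s2 := (summable_nat_add_iff (j + 1)).mpr (h.summ u)
  have s3 := ((summable_nat_add_iff (j + 1)).mpr h.wsum).mul_right (2 * ‖v‖)
  have h2 : ∑' k, w (k + (j + 1)) * FF (φ (k + (j + 1))) (ε (k + (j + 1))) (u + v) ≤
      ∑' k, (w (k + (j + 1)) * FF (φ (k + (j + 1))) (ε (k + (j + 1))) u
        + w (k + (j + 1)) * (2 * ‖v‖)) := by
    refine s1.tsum_le_tsum (fun k => ?_) (s2.add s3)
    rw [← mul_add]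
    refine mul_le_mul_of_nonneg_left ?_ (h.wpos _).le
    have a1 := FF_add (φ (k + (j + 1))) (h.εpos (k + (j + 1))).le u v
    have a2 := FF_le (φ (k + (j + 1))) (h.εle (k + (j + 1))) (h.φle _) v
    linarith
  rw [s2.tsum_add s3, tsum_mul_right] at h2
  have h3 := mul_le_mul_of_nonneg_right (h.wtail j) (by positivity : 0 ≤ 2 * ‖v‖)
  linarith

lemma Good.split (h : Good φ ε w) (j : ℕ) (u : H) :
    NN φ ε w u = (‖u‖ + ∑ k ∈ Finset.range j, w k * FF (φ k) (ε k) u) + w j * FF (φ j) (ε j) u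
      + ∑' k, w (k + (j + 1)) * FF (φ (k + (j + 1))) (ε (k + (j + 1))) u := by
  unfold NN
  rw [← (h.summ u).sum_add_tsum_nat_add (j + 1), Finset.sum_range_succ]
  ring

/-- the key local contradiction -/
lemma Good.key (h : Good φ ε w) (j : ℕ) (g0 x : H) (hg0 : g0 ≠ 0) (hx : x ≠ 0)
    (hj : |φ j g0| = ε j * ‖g0‖) (hlt : ∀ k < j, |φ k g0| ≠ ε k * ‖g0‖)
    (hbig : 6 * ‖x‖ * ε j < |φ j x|) (S : Set H)
    (hS : ∀ g ∈ S, ∀ α : ℝ, NN φ ε w g ≤ NN φ ε w (g + α • x))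
    (hp : ∀ ρ > 0, ∃ g ∈ S, ‖g - g0‖ < ρ ∧ ε j * ‖g‖ < |φ j g|)
    (hm : ∀ ρ > 0, ∃ g ∈ S, ‖g - g0‖ < ρ ∧ |φ j g| < ε j * ‖g‖) : False := by
  have hf : ContDiffAt ℝ 1
      (fun u : H => ‖u‖ + ∑ k ∈ Finset.range j, w k * FF (φ k) (ε k) u) g0 := by
    refine (contDiffAt_norm ℝ hg0).add (ContDiffAt.sum fun k hk => ?_)
    exact contDiffAt_const.mul
      (FF_contDiffAt _ (h.εpos k) hg0 (hlt k (Finset.mem_range.mp hk)))
  have hwe : 0 < w j * ε j := mul_pos (h.wpos j) (h.εpos j)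
  obtain ⟨ρ, hρ, hsd⟩ := second_diff hf (w j * ε j / 2) (by positivity)
  have hφ0 : 0 < |φ j g0| := by
    rw [hj]; exact mul_pos (h.εpos j) (norm_pos_iff.mpr hg0)
  -- a sign
  obtain ⟨σ, hσ, hσ0⟩ : ∃ σ : ℝ, (σ = 1 ∨ σ = -1) ∧ σ * φ j g0 = |φ j g0| := by
    rcases le_total 0 (φ j g0) with h1 | h1
    · exact ⟨1, Or.inl rfl, by rw [abs_of_nonneg h1]; ring⟩
    · exact ⟨-1, Or.inr rfl, by rw [abs_of_nonpos h1]; ring⟩
  obtain ⟨τ, hτ, hτ0⟩ : ∃ τ : ℝ, (τ = 1 ∨ τ = -1) ∧ σ * (τ * φ j x) = -|φ j x| := by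
    rcases le_total 0 (φ j x) with h1 | h1
    · refine ⟨-σ, ?_, ?_⟩
      · rcases hσ with r | r <;> simp [r]
      · rw [abs_of_nonneg h1]; rcases hσ with r | r <;> simp [r]
    · refine ⟨σ, hσ, ?_⟩
      rw [abs_of_nonpos h1]; rcases hσ with r | r <;> simp [r]
  have hσabs : ∀ t : ℝ, σ * t ≤ |t| := by
    intro t
    rcases hσ with r | r
    · rw [r, one_mul]; exact le_abs_self t
    · rw [r, neg_one_mul]; exact neg_le_abs t
  have hσabs' : ∀ t : ℝ, 0 ≤ σ * t → |t| = σ * t := by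
    intro t ht
    rcases hσ with r | r
    · rw [r, one_mul] at ht ⊢; exact abs_of_nonneg ht
    · rw [r, neg_one_mul] at ht ⊢; exact abs_of_nonpos (by linarith)
  have hτabs : |τ| = 1 := by rcases hτ with r | r <;> simp [r]
  obtain ⟨g, hgS, hg1, hg2⟩ := hp (min ρ (|φ j g0| / 4)) (by positivity)
  obtain ⟨g', hgS', hg1', hg2'⟩ := hm ρ hρ
  have hg3 : ‖g - g0‖ < ρ := lt_of_lt_of_le hg1 (min_le_left _ _)
  have hg4 : ‖g - g0‖ < |φ j g0| / 4 := lt_of_lt_of_le hg1 (min_le_right _ _)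
  have hgσ : 0 < σ * φ j g := by
    have e1 : φ j g = φ j g0 + φ j (g - g0) := by rw [map_sub]; ring
    have e2 := h.φle j (g - g0)
    have e3 := hσabs (-(φ j (g - g0)))
    rw [abs_neg] at e3
    rw [e1]; nlinarith
  -- choose a small step
  have c0 : Continuous fun a : ℝ => (a * τ) • x := by fun_prop
  have t1 : ∀ᶠ a : ℝ in 𝓝 0, ‖(a * τ) • x‖ < ρ := by
    refine ContinuousAt.eventually_lt (by fun_prop) continuousAt_const ?_
    simpa using hρ
  have t2 : ∀ᶠ a : ℝ in 𝓝 0, ε j * ‖g + (a * τ) • x‖ < |φ j (g + (a * τ) • x)| := by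
    refine ContinuousAt.eventually_lt (by fun_prop) (by fun_prop) ?_
    simpa using hg2
  have t3 : ∀ᶠ a : ℝ in 𝓝 0, |φ j (g' - (a * τ) • x)| < ε j * ‖g' - (a * τ) • x‖ := by
    refine ContinuousAt.eventually_lt (by fun_prop) (by fun_prop) ?_
    simpa using hg2'
  have t4 : ∀ᶠ a : ℝ in 𝓝 0, 0 < σ * φ j (g + (a * τ) • x) := by
    refine ContinuousAt.eventually_lt continuousAt_const (by fun_prop) ?_
    simpa using hgσ
  have t5 : ∀ᶠ a : ℝ in 𝓝[>] 0, 0 < a := self_mem_nhdsWithin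
  obtain ⟨a, ⟨⟨⟨a1, a2⟩, a3⟩, a4⟩, a5⟩ :=
    ((((t1.and t2).and t3).and t4).filter_mono nhdsWithin_le_nhds |>.and t5).exists
  set v := (a * τ) • x with hv
  have hvn : ‖v‖ = a * ‖x‖ := by
    rw [hv, norm_smul, Real.norm_eq_abs, abs_mul, hτabs, abs_of_pos a5, mul_one]
  have i1 := hS g hgS (a * τ)
  have i2 := hS g' hgS' (-(a * τ))
  rw [neg_smul, ← sub_eq_add_neg] at i2
  rw [← hv] at i1 i2
  rw [h.split j g, h.split j (g + v)] at i1
  rw [h.split j g', h.split j (g' - v)] at i2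
  have j1 := hsd g g' v hg3 hg1' a1
  have j2 := h.tail j g v
  have j3 := h.tail j g' (-v)
  rw [← sub_eq_add_neg, norm_neg] at j3
  have k1 : FF (φ j) (ε j) (g + v) = σ * φ j g - a * |φ j x| := by
    unfold FF
    rw [max_eq_right a2.le, hσabs' _ a4.le, map_add, hv, map_smul, smul_eq_mul]
    linear_combination a * hτ0
  have k2 : σ * φ j g ≤ FF (φ j) (ε j) g := le_trans (hσabs _) (le_max_right _ _)
  have k3 : FF (φ j) (ε j) (g' - v) ≤ ε j * ‖g'‖ + ε j * ‖v‖ := by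
    unfold FF
    rw [max_eq_left a3.le, ← mul_add]
    exact mul_le_mul_of_nonneg_left (norm_sub_le _ _) (h.εpos j).le
  have k4 : ε j * ‖g'‖ ≤ FF (φ j) (ε j) g' := le_max_left _ _
  have wj := h.wpos j
  have l2 := mul_le_mul_of_nonneg_left k2 wj.le
  have l3 := mul_le_mul_of_nonneg_left k3 wj.le
  have l4 := mul_le_mul_of_nonneg_left k4 wj.le
  have l5 := mul_lt_mul_of_pos_left hbig (mul_pos wj a5)
  have l6 : 0 < w j * ε j * (a * ‖x‖) := mul_pos hwe (mul_pos a5 (norm_pos_iff.mpr hx))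
  rw [k1] at i1
  rw [hvn] at j1 j2 j3 l3
  nlinarith

/-- the quadratic polynomial describing kinks along a line -/
lemma quad_eq (ψ : H →L[ℝ] ℝ) (e : ℝ) (g1 g2 : H) (s : ℝ) :
    (ψ (g1 + s • g2)) ^ 2 - e ^ 2 * ‖g1 + s • g2‖ ^ 2 =
      ((ψ g2) ^ 2 - e ^ 2 * ‖g2‖ ^ 2) * s ^ 2
        + 2 * (ψ g1 * ψ g2 - e ^ 2 * inner ℝ g1 g2) * s
        + ((ψ g1) ^ 2 - e ^ 2 * ‖g1‖ ^ 2) := by
  rw [norm_add_sq_real, map_add, map_smul, smul_eq_mul, norm_smul, inner_smul_right,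
    Real.norm_eq_abs, mul_pow, sq_abs]
  ring

lemma kink_iff (ψ : H →L[ℝ] ℝ) {e : ℝ} (he : 0 < e) (u : H) :
    |ψ u| = e * ‖u‖ ↔ (ψ u) ^ 2 - e ^ 2 * ‖u‖ ^ 2 = 0 := by
  rw [sub_eq_zero, ← mul_pow, ← sq_abs (ψ u), sq_eq_sq₀ (abs_nonneg _) (by positivity)]

lemma kink_lt (ψ : H →L[ℝ] ℝ) {e : ℝ} (he : 0 < e) (u : H) :
    |ψ u| < e * ‖u‖ ↔ (ψ u) ^ 2 - e ^ 2 * ‖u‖ ^ 2 < 0 := by
  rw [sub_neg, ← mul_pow, ← sq_abs (ψ u), sq_lt_sq₀ (abs_nonneg _) (by positivity)]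

lemma kink_gt (ψ : H →L[ℝ] ℝ) {e : ℝ} (he : 0 < e) (u : H) :
    e * ‖u‖ < |ψ u| ↔ 0 < (ψ u) ^ 2 - e ^ 2 * ‖u‖ ^ 2 := by
  rw [sub_pos, ← mul_pow, ← sq_abs (ψ u), sq_lt_sq₀ (by positivity) (abs_nonneg _)]

lemma exists_neg (ψ : H →L[ℝ] ℝ) {e : ℝ} (he : 0 < e) (g1 g2 : H)
    (hind : ∀ s : ℝ, g1 + s • g2 ≠ 0) (h2 : ψ g2 ≠ 0) :
    ∃ s : ℝ, |ψ (g1 + s • g2)| < e * ‖g1 + s • g2‖ := by
  refine ⟨-(ψ g1) / ψ g2, ?_⟩
  have : ψ (g1 + (-(ψ g1) / ψ g2) • g2) = 0 := by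
    rw [map_add, map_smul, smul_eq_mul]; field_simp; ring
  rw [this, abs_zero]
  exact mul_pos he (norm_pos_iff.mpr (hind _))

lemma quad_finite (a b c : ℝ) (h : ¬ (a = 0 ∧ b = 0 ∧ c = 0)) :
    {s : ℝ | a * s ^ 2 + b * s + c = 0}.Finite := by
  let p : Polynomial ℝ := Polynomial.C a * Polynomial.X ^ 2 + Polynomial.C b * Polynomial.X
    + Polynomial.C c
  have hp : p ≠ 0 := by
    intro h0
    apply h
    have h2 := congrArg (fun q => Polynomial.coeff q 2) h0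
    have h1 := congrArg (fun q => Polynomial.coeff q 1) h0
    have h3 := congrArg (fun q => Polynomial.coeff q 0) h0
    simp [p, Polynomial.coeff_X, Polynomial.coeff_C] at h1 h2 h3
    exact ⟨h2, h1, h3⟩
  refine (Polynomial.finite_setOf_isRoot hp).subset fun s hs => ?_
  simp only [Set.mem_setOf_eq, Polynomial.IsRoot, p] at hs ⊢
  simp [hs]

lemma kink_finite (ψ : H →L[ℝ] ℝ) {e : ℝ} (he : 0 < e) (g1 g2 : H)
    (hind : ∀ s : ℝ, g1 + s • g2 ≠ 0) (hg2 : g2 ≠ 0) :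
    {s : ℝ | |ψ (g1 + s • g2)| = e * ‖g1 + s • g2‖}.Finite := by
  simp only [kink_iff ψ he, quad_eq]
  apply quad_finite
  rintro ⟨ha, hb, hc⟩
  have h2 : ψ g2 ≠ 0 := by
    intro h0
    rw [h0] at ha
    have : 0 < e ^ 2 * ‖g2‖ ^ 2 := by
      have := norm_pos_iff.mpr hg2
      positivity
    linarith
  obtain ⟨s, hs⟩ := exists_neg ψ he g1 g2 hind h2
  rw [kink_lt ψ he, quad_eq, ha, hb, hc] at hs
  simp at hs

lemma quad_signs (a b c s0 s1 : ℝ) (ha : 0 < a) (h0 : a * s0 ^ 2 + b * s0 + c = 0)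
    (h1 : a * s1 ^ 2 + b * s1 + c < 0) (ρ : ℝ) (hρ : 0 < ρ) :
    (∃ s, |s - s0| < ρ ∧ 0 < a * s ^ 2 + b * s + c) ∧
      (∃ s, |s - s0| < ρ ∧ a * s ^ 2 + b * s + c < 0) := by
  set d := 2 * a * s0 + b with hd
  have key : ∀ t, a * (s0 + t) ^ 2 + b * (s0 + t) + c = t * (d + a * t) := by
    intro t; rw [hd]; linear_combination h0
  have hd0 : d ≠ 0 := by
    intro h
    have := key (s1 - s0)
    rw [h, add_sub_cancel] at this
    have h3 : 0 ≤ (s1 - s0) * (0 + a * (s1 - s0)) := by nlinarith [sq_nonneg (s1 - s0)]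
    linarith
  have hdp : 0 < |d| := abs_pos.mpr hd0
  set δ := min (ρ / 2) (|d| / (2 * a)) with hδ
  have δp : 0 < δ := by positivity
  have δ1 : δ < ρ := lt_of_le_of_lt (min_le_left _ _) (by linarith)
  have δ2 : a * δ < |d| := by
    have : δ ≤ |d| / (2 * a) := min_le_right _ _
    rw [le_div_iff₀ (by positivity)] at this
    nlinarith
  have e1 : |s0 + δ - s0| < ρ := by rw [add_sub_cancel_left, abs_of_pos δp]; exact δ1
  have e2 : |s0 + -δ - s0| < ρ := by rw [add_sub_cancel_left, abs_neg, abs_of_pos δp]; exact δ1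
  have aδ := mul_pos ha δp
  rcases lt_or_gt_of_ne hd0 with h | h
  · rw [abs_of_neg h] at δ2
    refine ⟨⟨s0 + -δ, e2, ?_⟩, ⟨s0 + δ, e1, ?_⟩⟩
    · rw [key]; nlinarith
    · rw [key]; nlinarith
  · rw [abs_of_pos h] at δ2
    refine ⟨⟨s0 + δ, e1, ?_⟩, ⟨s0 + -δ, e2, ?_⟩⟩
    · rw [key]; nlinarith
    · rw [key]; nlinarith

theorem Good.main (h : Good φ ε w) (g1 g2 x : H) (hind : ∀ s : ℝ, g1 + s • g2 ≠ 0)
    (hg2 : g2 ≠ 0) (hx : x ≠ 0)
    (hS : ∀ s α : ℝ, NN φ ε w (g1 + s • g2) ≤ NN φ ε w (g1 + s • g2 + α • x)) : False := by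
  classical
  have hg1 : g1 ≠ 0 := by simpa using hind 0
  obtain ⟨J, hJ⟩ := eventually_atTop.mp
    ((h.big x hx (6 * ‖x‖)).and ((h.big g1 hg1 ‖g1‖).and (h.big g2 hg2 ‖g2‖)))
  have hR : (⋃ k ∈ Set.Iio J, {s : ℝ | |φ k (g1 + s • g2)| = ε k * ‖g1 + s • g2‖}).Finite :=
    (Set.finite_Iio J).biUnion fun k _ => kink_finite _ (h.εpos k) g1 g2 hind hg2
  have hev : ∀ᶠ k in atTop, ∀ s ∈
      (⋃ k ∈ Set.Iio J, {s : ℝ | |φ k (g1 + s • g2)| = ε k * ‖g1 + s • g2‖}),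
      ‖g1 + s • g2‖ * ε k < |φ k (g1 + s • g2)| :=
    (eventually_all_finite hR).mpr fun s _ => h.big _ (hind s) _
  obtain ⟨j0, hj0, hj0J⟩ := (hev.and (eventually_ge_atTop J)).exists
  have nz : ∀ k, J ≤ k → φ k g2 ≠ 0 := by
    intro k hk h0
    have := (hJ k hk).2.2
    rw [h0, abs_zero] at this
    have := mul_pos (norm_pos_iff.mpr hg2) (h.εpos k)
    linarith
  obtain ⟨s1, hs1⟩ := exists_neg (φ j0) (h.εpos j0) g1 g2 hind (nz j0 hj0J)
  have hc : Continuous fun s : ℝ => |φ j0 (g1 + s • g2)| - ε j0 * ‖g1 + s • g2‖ := by fun_prop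
  obtain ⟨s0, hs0⟩ : ∃ s0 : ℝ, |φ j0 (g1 + s0 • g2)| - ε j0 * ‖g1 + s0 • g2‖ = 0 := by
    have := intermediate_value_univ s1 0 hc
    refine this ⟨by linarith, ?_⟩
    have := (hJ j0 hj0J).2.1
    simp only [zero_smul, add_zero]
    linarith
  have hex : ∃ j, |φ j (g1 + s0 • g2)| = ε j * ‖g1 + s0 • g2‖ := ⟨j0, by linarith⟩
  have hjJ : J ≤ Nat.find hex := by
    by_contra hlt
    have hmem : s0 ∈
        (⋃ k ∈ Set.Iio J, {s : ℝ | |φ k (g1 + s • g2)| = ε k * ‖g1 + s • g2‖}) :=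
      Set.mem_biUnion (x := Nat.find hex) (lt_of_not_ge hlt) (Nat.find_spec hex)
    have := hj0 s0 hmem
    linarith
  set j := Nat.find hex with hjdef
  have hj : |φ j (g1 + s0 • g2)| = ε j * ‖g1 + s0 • g2‖ := Nat.find_spec hex
  obtain ⟨s2, hs2⟩ := exists_neg (φ j) (h.εpos j) g1 g2 hind (nz j hjJ)
  have hq0 := hj
  rw [kink_iff _ (h.εpos j), quad_eq] at hq0
  rw [kink_lt _ (h.εpos j), quad_eq] at hs2
  have ha : 0 < (φ j g2) ^ 2 - ε j ^ 2 * ‖g2‖ ^ 2 := by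
    rw [← kink_gt _ (h.εpos j)]
    have := (hJ j hjJ).2.2
    linarith
  have n2 : 0 < ‖g2‖ := norm_pos_iff.mpr hg2
  have hdist : ∀ ρ > 0, ∀ s : ℝ, |s - s0| < ρ / ‖g2‖ →
      ‖g1 + s • g2 - (g1 + s0 • g2)‖ < ρ := by
    intro ρ _ s hs
    have : g1 + s • g2 - (g1 + s0 • g2) = (s - s0) • g2 := by rw [sub_smul]; abel
    rw [this, norm_smul, Real.norm_eq_abs]
    rwa [lt_div_iff₀ n2] at hs
  refine h.key j (g1 + s0 • g2) x (hind s0) hx hj (fun k hk => Nat.find_min hex hk)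
    (hJ j hjJ).1 (Set.range fun s : ℝ => g1 + s • g2) ?_ ?_ ?_
  · rintro g ⟨s, rfl⟩ α
    exact hS s α
  · intro ρ hρ
    obtain ⟨s, a1, a2⟩ := (quad_signs _ _ _ s0 s2 ha hq0 hs2 (ρ / ‖g2‖) (by positivity)).1
    refine ⟨_, ⟨s, rfl⟩, hdist ρ hρ s a1, ?_⟩
    rw [kink_gt _ (h.εpos j), quad_eq]; exact a2
  · intro ρ hρ
    obtain ⟨s, a1, a2⟩ := (quad_signs _ _ _ s0 s2 ha hq0 hs2 (ρ / ‖g2‖) (by positivity)).2
    refine ⟨_, ⟨s, rfl⟩, hdist ρ hρ s a1, ?_⟩
    rw [kink_lt _ (h.εpos j), quad_eq]; exact a2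

end Abstract

section Concrete

abbrev HH : Type := lp (fun _ : ℕ => ℝ) 2

lemma coord_le (x : HH) (n : ℕ) : |x n| ≤ ‖x‖ := by
  have := lp.norm_apply_le_norm (by norm_num : (2 : ENNReal) ≠ 0) x n
  simpa using this

lemma geo_le {t : ℝ} (h0 : 0 ≤ t) (h1 : t ≤ 1 / 2) : ∑' n : ℕ, t ^ n ≤ 2 := by
  rw [tsum_geometric_of_lt_one h0 (by linarith), inv_le_comm₀ (by linarith) (by norm_num)]
  linarith

lemma summ_abs (x : HH) (m : ℕ) {t : ℝ} (h0 : 0 ≤ t) (h1 : t ≤ 1 / 2) :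
    Summable fun n : ℕ => ‖x (n + m) * t ^ n‖ := by
  refine Summable.of_nonneg_of_le (fun n => norm_nonneg _) (fun n => ?_)
    ((summable_geometric_of_lt_one h0 (by linarith)).mul_left ‖x‖)
  rw [norm_mul, Real.norm_eq_abs, Real.norm_eq_abs, abs_of_nonneg (pow_nonneg h0 n)]
  exact mul_le_mul_of_nonneg_right (coord_le x _) (pow_nonneg h0 n)

lemma tsum_abs_le (x : HH) (m : ℕ) {t : ℝ} (h0 : 0 ≤ t) (h1 : t ≤ 1 / 2) :
    |∑' n : ℕ, x (n + m) * t ^ n| ≤ 2 * ‖x‖ := by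
  have hs := (summable_geometric_of_lt_one h0 (by linarith)).mul_left ‖x‖
  have h2 : ‖∑' n : ℕ, x (n + m) * t ^ n‖ ≤ ∑' n : ℕ, ‖x‖ * t ^ n := by
    refine tsum_of_norm_bounded hs.hasSum fun n => ?_
    rw [norm_mul, Real.norm_eq_abs, Real.norm_eq_abs, abs_of_nonneg (pow_nonneg h0 n)]
    exact mul_le_mul_of_nonneg_right (coord_le x _) (pow_nonneg h0 n)
  rw [tsum_mul_left, Real.norm_eq_abs] at h2
  have := mul_le_mul_of_nonneg_left (geo_le h0 h1) (norm_nonneg x)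
  linarith

noncomputable def tt (k : ℕ) : ℝ := (1 / 2) ^ (k + 1)

lemma tt_pos (k : ℕ) : 0 < tt k := by unfold tt; positivity

lemma tt_le (k : ℕ) : tt k ≤ 1 / 2 := by
  unfold tt
  rw [pow_succ]
  have : (1 / 2 : ℝ) ^ k ≤ 1 := pow_le_one₀ (by norm_num) (by norm_num)
  linarith

lemma summ0 (x : HH) (k : ℕ) : Summable fun n : ℕ => x n * tt k ^ n := by
  have := (summ_abs x 0 (tt_pos k).le (tt_le k)).of_norm
  simpa using this

noncomputable def ph (k : ℕ) : HH →L[ℝ] ℝ :=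
  LinearMap.mkContinuous
    { toFun := fun x => ∑' n : ℕ, x n * tt k ^ n
      map_add' := fun x y => by
        rw [← (summ0 x k).tsum_add (summ0 y k)]
        refine tsum_congr fun n => ?_
        simp only [lp.coeFn_add, Pi.add_apply]; ring
      map_smul' := fun a x => by
        simp only [RingHom.id_apply, smul_eq_mul]
        rw [← tsum_mul_left]
        refine tsum_congr fun n => ?_
        simp only [lp.coeFn_smul, Pi.smul_apply, smul_eq_mul]; ring } 2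
    (fun x => by
      have := tsum_abs_le x 0 (tt_pos k).le (tt_le k)
      simpa using this)

lemma ph_apply (k : ℕ) (x : HH) : ph k x = ∑' n : ℕ, x n * tt k ^ n := rfl

noncomputable def ee (k : ℕ) : ℝ := tt k ^ k

noncomputable def ww : ℕ → ℝ
  | 0 => 1
  | k + 1 => ww k * ee k / 2

lemma ee_pos (k : ℕ) : 0 < ee k := pow_pos (tt_pos k) k

lemma ee_le (k : ℕ) : ee k ≤ 1 := pow_le_one₀ (tt_pos k).le (by linarith [tt_le k])

lemma ww_pos (k : ℕ) : 0 < ww k := by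
  induction k with
  | zero => simp [ww]
  | succ k ih => have := ee_pos k; simp only [ww]; positivity

lemma ww_le (j k : ℕ) : ww (k + j) ≤ ww j * (1 / 2) ^ k := by
  induction k with
  | zero => simp
  | succ k ih =>
    have e : k + 1 + j = (k + j) + 1 := by ring
    rw [e, pow_succ]
    simp only [ww]
    have := mul_le_mul_of_nonneg_left (ee_le (k + j)) (ww_pos (k + j)).le
    nlinarith

lemma ww_summ (j : ℕ) : Summable fun k => ww (k + j) :=
  Summable.of_nonneg_of_le (fun _ => (ww_pos _).le) (fun k => ww_le j k)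
    (summable_geometric_two.mul_left _)

lemma good : Good ph ee ww where
  εpos := ee_pos
  εle := ee_le
  wpos := ww_pos
  wsum := by simpa using ww_summ 0
  wtail := fun j => by
    have := (ww_summ (j + 1)).tsum_le_tsum (fun k => ww_le (j + 1) k)
      (summable_geometric_two.mul_left _)
    rw [tsum_mul_left, tsum_geometric_two] at this
    simp only [ww] at this ⊢
    linarith
  φle := fun k x => by
    have := tsum_abs_le x 0 (tt_pos k).le (tt_le k)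
    simpa [ph_apply] using this
  big := fun x hx C => by
    classical
    have hex : ∃ n, x n ≠ 0 := by
      by_contra hn
      push Not at hn
      exact hx (lp.ext (funext hn))
    set m := Nat.find hex with hm
    have hxm : x m ≠ 0 := Nat.find_spec hex
    have hlt : ∀ n < m, x n = 0 := fun n hn => by
      have := Nat.find_min hex hn
      simpa using this
    have ht : Tendsto (fun k => (|C| + 2 * ‖x‖) * tt k) atTop (𝓝 0) := by
      have h1 : Tendsto tt atTop (𝓝 0) :=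
        (tendsto_pow_atTop_nhds_zero_of_lt_one (by norm_num) (by norm_num)).comp
          (tendsto_add_atTop_nat 1)
      simpa using h1.const_mul (|C| + 2 * ‖x‖)
    have h2 := ht.eventually (gt_mem_nhds (abs_pos.mpr hxm))
    filter_upwards [h2, eventually_ge_atTop (m + 1)] with k hk1 hk2
    have tp := tt_pos k
    have e1 : ph k x = tt k ^ m * (x m + tt k * ∑' n : ℕ, x (n + (m + 1)) * tt k ^ n) := by
      rw [ph_apply, ← (summ0 x k).sum_add_tsum_nat_add (m + 1), Finset.sum_range_succ,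
        Finset.sum_eq_zero (fun n hn => by rw [hlt n (Finset.mem_range.mp hn), zero_mul]),
        mul_add, ← mul_assoc, ← tsum_mul_left, zero_add, mul_comm (x m)]
      congr 1
      refine tsum_congr fun n => ?_
      ring
    have e2 := tsum_abs_le x (m + 1) tp.le (tt_le k)
    set R := ∑' n : ℕ, x (n + (m + 1)) * tt k ^ n
    have e3 : |x m| - tt k * (2 * ‖x‖) ≤ |x m + tt k * R| := by
      have a1 := abs_add_le (x m + tt k * R) (-(tt k * R))
      rw [add_neg_cancel_right, abs_neg, abs_mul, abs_of_pos tp] at a1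
      have a2 := mul_le_mul_of_nonneg_left e2 tp.le
      linarith
    have e4 : ee k ≤ tt k ^ m * tt k := by
      rw [← pow_succ]
      exact pow_le_pow_of_le_one tp.le (by linarith [tt_le k]) hk2
    rw [e1, abs_mul, abs_of_pos (pow_pos tp m)]
    have e5 : C * ee k ≤ |C| * (tt k ^ m * tt k) :=
      le_trans (mul_le_mul_of_nonneg_right (le_abs_self C) (ee_pos k).le)
        (mul_le_mul_of_nonneg_left e4 (abs_nonneg C))
    have e6 : |C| * tt k < |x m + tt k * R| := by nlinarith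
    have e7 := mul_lt_mul_of_pos_left e6 (pow_pos tp m)
    nlinarith

lemma HH_infinite : ¬ FiniteDimensional ℝ HH := by
  intro hfin
  have ho : Orthonormal ℝ (fun n : ℕ => (lp.single 2 n (1 : ℝ) : HH)) := by
    have := (default : HilbertBasis ℕ ℝ HH).orthonormal
    rw [orthonormal_iff_ite]
    intro i j
    rw [lp.inner_single_left]
    by_cases hij : i = j
    · subst hij; simp
    · simp [hij, lp.single_apply, Pi.single_apply]
  have := ho.linearIndependent.finite_of_isNoetherian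
  exact not_finite ℕ

end Concrete

end Pool.Agent.H.MP_8cad90_an
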